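import Mathlib
import Pool.Agent.Lib.MP_2c0ab4_co.Abstract

/-!
# Log-concavity for arguments at least the order minus one, and a gap

The family `P S q` of chromatic polynomials of induced subgraphs, as in `Abstract`.
-/

set_option autoImplicit false

namespace Pool.Agent.Lib.MP_2c0ab4_co.H61

open Finset Pool.Agent.Lib.MP_2c0ab4_co

variable {V : Type} [DecidableEq V] {G : SimpleGraph V} [DecidableRel G.Adj]
  {P : Finset V → ℝ → ℝ}

/-- `P (H + u) q ≥ (q - deg u) P H q`. -/
theorem deg_le (h : ChromFam G P) (H : Finset V) (u : V) (hu : u ∉ H) (q : ℝ)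
    (hq : (H.card : ℝ) ≤ q) :
    (q - ((H.filter (fun v => G.Adj u v)).card : ℝ)) * P H q ≤ P (insert u H) q := by
  classical
  have hq0 : 0 ≤ q := le_trans (Nat.cast_nonneg _) hq
  set A := H.filter (fun v => G.Adj u v) with hA
  have hZ : ∀ T ∈ indep G H, 0 ≤ P (H \ T) (q - 1) := by
    intro T hT
    apply h.nonneg'
    have : ((H \ T).card : ℝ) ≤ H.card := by exact_mod_cast Finset.card_le_card Finset.sdiff_subset
    linarith
  rw [h.classOf_insert H u hu q]
  have h1 : ∑ T ∈ indep G H, P (H \ T) (q - 1) ≤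
      ∑ T ∈ (indep G H).filter (fun T => ∀ v ∈ T, ¬ G.Adj u v), P (H \ T) (q - 1)
      + ∑ a ∈ A, ∑ T ∈ (indep G H).filter (fun T => a ∈ T), P (H \ T) (q - 1) := by
    have h2 : ∑ a ∈ A, ∑ T ∈ (indep G H).filter (fun T => a ∈ T), P (H \ T) (q - 1)
        = ∑ T ∈ indep G H, ((T.filter (fun v => v ∈ A)).card : ℝ) * P (H \ T) (q - 1) := by
      simp_rw [Finset.sum_filter]
      rw [Finset.sum_comm]
      apply Finset.sum_congr rfl
      intro T hT
      rw [← Finset.sum_filter, Finset.sum_const, nsmul_eq_mul]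
      congr 3
      ext a
      simp only [Finset.mem_filter]
      tauto
    rw [h2, Finset.sum_filter, ← Finset.sum_add_distrib]
    apply Finset.sum_le_sum
    intro T hT
    have hZT := hZ T hT
    split_ifs with hc
    · have : 0 ≤ ((T.filter (fun v => v ∈ A)).card : ℝ) * P (H \ T) (q - 1) :=
        mul_nonneg (Nat.cast_nonneg _) hZT
      linarith
    · push Not at hc
      obtain ⟨v, hv, hadj⟩ := hc
      have hmem : v ∈ T.filter (fun v => v ∈ A) := by
        rw [Finset.mem_filter, hA, Finset.mem_filter]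
        exact ⟨hv, (mem_indep.1 hT).1 hv, hadj⟩
      have h3 : 1 ≤ (T.filter (fun v => v ∈ A)).card := Finset.card_pos.2 ⟨v, hmem⟩
      have h4 : (1 : ℝ) ≤ ((T.filter (fun v => v ∈ A)).card : ℝ) := by exact_mod_cast h3
      nlinarith
  have h5 : ∀ a ∈ A, q * ∑ T ∈ (indep G H).filter (fun T => a ∈ T), P (H \ T) (q - 1)
      = P H q := by
    intro a ha
    rw [h.classOf H a q]
    rw [hA, Finset.mem_filter] at ha
    exact ha.1
  have h6 : q * ∑ a ∈ A, ∑ T ∈ (indep G H).filter (fun T => a ∈ T), P (H \ T) (q - 1)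
      = A.card * P H q := by
    rw [Finset.mul_sum, Finset.sum_congr rfl h5, Finset.sum_const, nsmul_eq_mul]
  have h7 : q * P H q ≤
      q * ∑ T ∈ (indep G H).filter (fun T => ∀ v ∈ T, ¬ G.Adj u v), P (H \ T) (q - 1)
      + A.card * P H q := by
    rw [← h6, ← mul_add]
    apply mul_le_mul_of_nonneg_left _ hq0
    rw [h.classSum H q]
    exact h1
  linarith

/-- `P (H + u) q ≤ q P H q`. -/
theorem insert_le (h : ChromFam G P) (H : Finset V) (u : V) (hu : u ∉ H) (q : ℝ)
    (hq : (H.card : ℝ) ≤ q) : P (insert u H) q ≤ q * P H q := by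
  classical
  have hq0 : 0 ≤ q := le_trans (Nat.cast_nonneg _) hq
  rw [h.classOf_insert H u hu q, h.classSum H q]
  apply mul_le_mul_of_nonneg_left _ hq0
  apply Finset.sum_le_sum_of_subset_of_nonneg (Finset.filter_subset _ _)
  intro T _ _
  apply h.nonneg'
  have : ((H \ T).card : ℝ) ≤ H.card := by exact_mod_cast Finset.card_le_card Finset.sdiff_subset
  linarith

/-- The core estimate behind the key inequality. -/
theorem core (h : ChromFam G P) (H : Finset V) (u : V) (hu : u ∉ H) (q : ℝ)
    (hq : (H.card : ℝ) ≤ q) (w0 : V) (hw0 : w0 ∈ H)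
    (hm : ∀ T ∈ indep G H, P H (q - 1 - 1) * P (H \ T) (q - 1) ≤
      P H (q - 1) * P (H \ T) (q - 1 - 1)) :
    0 ≤ q * P H (q - 1) * P H (q - 1) - (q - 1) * P H (q - 1 - 1) * P H q ∧
    P H (q - 1) * (P (insert u H) (q - 1) * P H q - P (insert u H) q * P H (q - 1)) * q ≤
      -((q * P H (q - 1) * P H (q - 1) - (q - 1) * P H (q - 1 - 1) * P H q) *
        (P (insert u H) q - ((H.filter (fun v => ¬ G.Adj u v)).card : ℝ) * P H q)) := by
  classical
  have hcpos : 1 ≤ H.card := Finset.card_pos.2 ⟨w0, hw0⟩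
  have hcpos' : (1 : ℝ) ≤ H.card := by exact_mod_cast hcpos
  have hqpos : 0 < q := by linarith
  set p1 := P H q with hp1
  set p0 := P H (q - 1) with hp0
  set p00 := P H (q - 1 - 1) with hp00
  have p1pos : 0 < p1 := h.pos' H q (by linarith)
  let Z : Finset V → ℝ := fun T => P (H \ T) (q - 1)
  let Z' : Finset V → ℝ := fun T => P (H \ T) (q - 1 - 1)
  let a : Finset V → ℝ := fun T => (q - 1) * Z' T * p1 - q * Z T * p0
  have hZ0 : ∀ T, 0 ≤ Z T := by
    intro T
    apply h.nonneg'
    have : ((H \ T).card : ℝ) ≤ H.card := by exact_mod_cast Finset.card_le_card Finset.sdiff_subset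
    linarith
  have hvanish : ∀ w ∈ H, ∑ T ∈ (indep G H).filter (fun T => w ∈ T), a T = 0 := by
    intro w hw
    have e1 : q * ∑ T ∈ (indep G H).filter (fun T => w ∈ T), Z T = p1 :=
      (h.classOf H w q hw).symm
    have e2 : (q - 1) * ∑ T ∈ (indep G H).filter (fun T => w ∈ T), Z' T = p0 :=
      (h.classOf H w (q - 1) hw).symm
    have e3 : ∑ T ∈ (indep G H).filter (fun T => w ∈ T), a T
        = p1 * ((q - 1) * ∑ T ∈ (indep G H).filter (fun T => w ∈ T), Z' T)
          - p0 * (q * ∑ T ∈ (indep G H).filter (fun T => w ∈ T), Z T) := by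
      simp only [a, Finset.sum_sub_distrib, Finset.mul_sum]
      congr 1 <;> (apply Finset.sum_congr rfl; intro T _; ring)
    rw [e3, e1, e2]
    ring
  set Θ := q * p0 * p0 - (q - 1) * p00 * p1 with hΘ
  have hlow : ∀ T ∈ indep G H, -(Θ * Z T) ≤ p0 * a T := by
    intro T hT
    have e2 : p00 * Z T ≤ p0 * Z' T := hm T hT
    have e3 : 0 ≤ (q - 1) * p1 := mul_nonneg (by linarith) p1pos.le
    have e4 := mul_le_mul_of_nonneg_left e2 e3
    simp only [a, hΘ]
    nlinarith
  have hΘ0 : 0 ≤ Θ := by
    have e1 := hvanish w0 hw0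
    have e2 : ∑ T ∈ (indep G H).filter (fun T => w0 ∈ T), -(Θ * Z T) ≤
        ∑ T ∈ (indep G H).filter (fun T => w0 ∈ T), p0 * a T := by
      apply Finset.sum_le_sum
      intro T hT
      exact hlow T (Finset.mem_filter.1 hT).1
    rw [← Finset.mul_sum, e1, mul_zero, Finset.sum_neg_distrib, ← Finset.mul_sum] at e2
    have e3 : 0 < ∑ T ∈ (indep G H).filter (fun T => w0 ∈ T), Z T := by
      apply Finset.sum_pos
      · intro T hT
        have hlt : (H \ T).card < H.card :=
          ChromFam.card_sdiff_lt hw0 (Finset.mem_filter.1 hT).2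
        have hlt' : ((H \ T).card : ℝ) + 1 ≤ (H.card : ℝ) := by exact_mod_cast hlt
        exact h.pos' _ _ (by linarith)
      · refine ⟨{w0}, ?_⟩
        rw [Finset.mem_filter]
        exact ⟨singleton_mem_indep hw0, Finset.mem_singleton_self w0⟩
    by_contra hcon
    push Not at hcon
    nlinarith
  refine ⟨hΘ0, ?_⟩
  set W := H.filter (fun v => ¬ G.Adj u v) with hW
  have hsumW : ∀ F : Finset V → ℝ,
      ∑ w ∈ W, ∑ T ∈ (indep G H).filter (fun T => w ∈ T), F T
      = ∑ T ∈ indep G H, ((T.filter (fun v => v ∈ W)).card : ℝ) * F T := by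
    intro F
    simp_rw [Finset.sum_filter]
    rw [Finset.sum_comm]
    apply Finset.sum_congr rfl
    intro T hT
    rw [← Finset.sum_filter, Finset.sum_const, nsmul_eq_mul]
    congr 3
    ext a
    simp only [Finset.mem_filter]
    tauto
  have hsumA : ∑ T ∈ indep G H, ((T.filter (fun v => v ∈ W)).card : ℝ) * a T = 0 := by
    rw [← hsumW]
    apply Finset.sum_eq_zero
    intro w hw
    rw [hW, Finset.mem_filter] at hw
    exact hvanish w hw.1
  have hsumZ : q * ∑ T ∈ indep G H, ((T.filter (fun v => v ∈ W)).card : ℝ) * Z T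
      = W.card * p1 := by
    rw [← hsumW, Finset.mul_sum]
    have : ∀ w ∈ W, q * ∑ T ∈ (indep G H).filter (fun T => w ∈ T), Z T = p1 := by
      intro w hw
      rw [hW, Finset.mem_filter] at hw
      exact (h.classOf H w q hw.1).symm
    rw [Finset.sum_congr rfl this, Finset.sum_const, nsmul_eq_mul]
  let e : Finset V → ℝ := fun T =>
    (if ∀ v ∈ T, ¬ G.Adj u v then (1 : ℝ) else 0) - ((T.filter (fun v => v ∈ W)).card : ℝ)
  have hpt : ∀ T ∈ indep G H, e T * (p0 * a T) ≤ e T * (-(Θ * Z T)) := by
    intro T hT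
    rcases T.eq_empty_or_nonempty with h0 | hne
    · subst h0
      have e1 : Z ∅ = p0 := by simp only [Z, Finset.sdiff_empty]; rfl
      have e2 : Z' ∅ = p00 := by simp only [Z', Finset.sdiff_empty]; rfl
      have e3 : p0 * a ∅ = -(Θ * Z ∅) := by
        simp only [a, e1, e2, hΘ]; ring
      rw [e3]
    · have he : e T ≤ 0 := by
        simp only [e]
        split_ifs with hc
        · have : T.filter (fun v => v ∈ W) = T := by
            apply Finset.filter_true_of_mem
            intro v hv
            rw [hW, Finset.mem_filter]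
            exact ⟨(mem_indep.1 hT).1 hv, hc v hv⟩
          rw [this]
          have : 1 ≤ T.card := Finset.card_pos.2 hne
          have : (1 : ℝ) ≤ T.card := by exact_mod_cast this
          linarith
        · have : (0 : ℝ) ≤ ((T.filter (fun v => v ∈ W)).card : ℝ) := Nat.cast_nonneg _
          linarith
      exact mul_le_mul_of_nonpos_left (hlow T hT) he
  have hsum1 : ∑ T ∈ indep G H, e T * (p0 * a T) =
      p0 * ∑ T ∈ (indep G H).filter (fun T => ∀ v ∈ T, ¬ G.Adj u v), a T := by
    have e1 : ∑ T ∈ indep G H, e T * (p0 * a T) =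
        p0 * ∑ T ∈ indep G H, (if ∀ v ∈ T, ¬ G.Adj u v then a T else 0)
        - p0 * ∑ T ∈ indep G H, ((T.filter (fun v => v ∈ W)).card : ℝ) * a T := by
      rw [Finset.mul_sum, Finset.mul_sum, ← Finset.sum_sub_distrib]
      apply Finset.sum_congr rfl
      intro T _
      simp only [e]
      split_ifs <;> ring
    rw [e1, hsumA, mul_zero, sub_zero, Finset.sum_filter]
  have hsum2 : ∑ T ∈ indep G H, e T * (-(Θ * Z T)) =
      -(Θ * (∑ T ∈ (indep G H).filter (fun T => ∀ v ∈ T, ¬ G.Adj u v), Z T
        - ∑ T ∈ indep G H, ((T.filter (fun v => v ∈ W)).card : ℝ) * Z T)) := by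
    rw [Finset.sum_filter, ← Finset.sum_sub_distrib, Finset.mul_sum, ← Finset.sum_neg_distrib]
    apply Finset.sum_congr rfl
    intro T _
    simp only [e]
    split_ifs <;> ring
  have hle := Finset.sum_le_sum hpt
  rw [hsum1, hsum2] at hle
  have hc1 : P (insert u H) (q - 1) =
      (q - 1) * ∑ T ∈ (indep G H).filter (fun T => ∀ v ∈ T, ¬ G.Adj u v), Z' T :=
    h.classOf_insert H u hu (q - 1)
  have hc2 : P (insert u H) q =
      q * ∑ T ∈ (indep G H).filter (fun T => ∀ v ∈ T, ¬ G.Adj u v), Z T :=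
    h.classOf_insert H u hu q
  have hc3 : ∑ T ∈ (indep G H).filter (fun T => ∀ v ∈ T, ¬ G.Adj u v), a T
      = P (insert u H) (q - 1) * p1 - P (insert u H) q * p0 := by
    rw [hc1, hc2]
    simp only [a, Finset.sum_sub_distrib, Finset.mul_sum, Finset.sum_mul]
  rw [hc3] at hle
  have h9 := mul_le_mul_of_nonneg_right hle hqpos.le
  refine le_trans h9 (le_of_eq ?_)
  rw [hc2, ← hsumZ]
  ring

/-- **Key inequality** for `q ≥ |H|`. -/
theorem keyE (h : ChromFam G P) : ∀ (n : ℕ) (H : Finset V) (u : V) (q : ℝ), H.card = n → u ∉ H →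
    (H.card : ℝ) ≤ q →
    P (insert u H) (q - 1) * P H q ≤ P (insert u H) q * P H (q - 1) := by
  classical
  intro n
  induction n using Nat.strong_induction_on with
  | _ n ih =>
    intro H u q hn hu hq
    rcases H.eq_empty_or_nonempty with h0 | ⟨w0, hw0⟩
    · subst h0
      rw [h.classOf_insert ∅ u hu q, h.classOf_insert ∅ u hu (q - 1), h.empty, h.empty]
      have h1 : (indep G (∅ : Finset V)).filter (fun T => ∀ v ∈ T, ¬ G.Adj u v) = {∅} := by
        ext T
        rw [Finset.mem_filter, mem_indep, Finset.mem_singleton]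
        constructor
        · rintro ⟨⟨h1, _⟩, _⟩
          exact Finset.subset_empty.1 h1
        · rintro rfl
          simp
      rw [h1, Finset.sum_singleton, Finset.sum_singleton, Finset.sdiff_self, h.empty, h.empty]
      linarith
    have hmono : ∀ (k : ℕ) (S : Finset V), S.card = k → ∀ H' : Finset V, S ⊆ H' → H'.card ≤ n →
        ∀ q' : ℝ, (H'.card : ℝ) ≤ q' + 1 →
        P H' (q' - 1) * P (H' \ S) q' ≤ P H' q' * P (H' \ S) (q' - 1) := by
      intro k
      induction k with
      | zero =>
        intro S hS H' _ _ q' _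
        rw [Finset.card_eq_zero] at hS
        subst hS
        rw [Finset.sdiff_empty]
        linarith
      | succ k ihk =>
        intro S hS H' hSH hH' q' hq'
        obtain ⟨t, ht⟩ : S.Nonempty := by
          rw [← Finset.card_pos, hS]; omega
        have ht' : t ∈ H' := hSH ht
        set H1 := H'.erase t with hH1
        have hcard1 : H1.card + 1 = H'.card := Finset.card_erase_add_one ht'
        have hcard1' : (H1.card : ℝ) + 1 = H'.card := by exact_mod_cast hcard1
        have hins : insert t H1 = H' := Finset.insert_erase ht'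
        have hsd : H1 \ (S.erase t) = H' \ S := by
          ext a
          simp only [hH1, Finset.mem_sdiff, Finset.mem_erase, not_and, ne_eq]
          constructor
          · rintro ⟨⟨h1, h2⟩, h3⟩
            exact ⟨h2, h3 h1⟩
          · rintro ⟨h1, h2⟩
            have : a ≠ t := fun h => h2 (h ▸ ht)
            exact ⟨⟨this, h1⟩, fun _ => h2⟩
        have hsub : S.erase t ⊆ H1 := Finset.erase_subset_erase t hSH
        have hk : (S.erase t).card = k := by
          rw [Finset.card_erase_of_mem ht, hS]; rfl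
        have e1 := ihk (S.erase t) hk H1 hsub (by omega) q' (by linarith)
        rw [hsd] at e1
        have hH1lt : H1.card < n := by omega
        have e2 := ih H1.card hH1lt H1 t q' rfl (Finset.notMem_erase t H') (by linarith)
        rw [hins] at e2
        have p1 : 0 < P H1 q' := h.pos' H1 q' (by linarith)
        have p2 : 0 ≤ P H1 (q' - 1) := h.nonneg' H1 (q' - 1) (by linarith)
        have hsle : ((H' \ S).card : ℝ) ≤ q' := by
          have h3 : (H' \ S).card ≤ H1.card := by
            rw [← hsd]; exact Finset.card_le_card Finset.sdiff_subset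
          have h4 : ((H' \ S).card : ℝ) ≤ H1.card := by exact_mod_cast h3
          linarith
        have p3 : 0 < P (H' \ S) q' := h.pos' _ q' (by linarith)
        have p4 : 0 ≤ P (H' \ S) (q' - 1) := h.nonneg' _ (q' - 1) (by linarith)
        have p5 : 0 ≤ P H' q' := h.nonneg' _ q' hq'
        rcases p2.eq_or_lt with p2z | p2p
        · -- then `P H' (q' - 1) ≤ 0`
          rw [← p2z, mul_zero] at e2
          have e4 : P H' (q' - 1) ≤ 0 := by
            by_contra hcon
            push Not at hcon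
            have := mul_pos hcon p1
            linarith
          have e5 : P H' (q' - 1) * P (H' \ S) q' ≤ 0 := mul_nonpos_of_nonpos_of_nonneg e4 p3.le
          have e6 : 0 ≤ P H' q' * P (H' \ S) (q' - 1) := mul_nonneg p5 p4
          linarith
        · have e3 : (P H' (q' - 1) * P (H' \ S) q') * (P H1 q' * P H1 (q' - 1)) ≤
              (P H' q' * P (H' \ S) (q' - 1)) * (P H1 q' * P H1 (q' - 1)) := by
            calc (P H' (q' - 1) * P (H' \ S) q') * (P H1 q' * P H1 (q' - 1))
                = (P H' (q' - 1) * P H1 q') * (P H1 (q' - 1) * P (H' \ S) q') := by ring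
              _ ≤ (P H' q' * P H1 (q' - 1)) * (P H1 q' * P (H' \ S) (q' - 1)) := by
                  apply mul_le_mul e2 e1
                  · exact mul_nonneg p2 p3.le
                  · exact mul_nonneg p5 p2
              _ = (P H' q' * P (H' \ S) (q' - 1)) * (P H1 q' * P H1 (q' - 1)) := by ring
          exact le_of_mul_le_mul_right e3 (mul_pos p1 p2p)
    have hcpos : 1 ≤ H.card := Finset.card_pos.2 ⟨w0, hw0⟩
    have hcpos' : (1 : ℝ) ≤ H.card := by exact_mod_cast hcpos
    have hqpos : 0 < q := by linarith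
    have hm : ∀ T ∈ indep G H, P H (q - 1 - 1) * P (H \ T) (q - 1) ≤
        P H (q - 1) * P (H \ T) (q - 1 - 1) := fun T hT =>
      hmono T.card T rfl H (mem_indep.1 hT).1 (by omega) (q - 1) (by linarith)
    obtain ⟨hΘ0, hc⟩ := core h H u hu q hq w0 hw0 hm
    have p1pos : 0 < P H q := h.pos' H q hq
    have p0nn : 0 ≤ P H (q - 1) := h.nonneg' H (q - 1) (by linarith)
    have hcm := h.card_mul_le H u hu q hq
    rcases p0nn.eq_or_lt with hz | hp
    · -- `P H (q - 1) = 0`
      rw [← hz, mul_zero]
      have hz' : P H (q - 1) = 0 := hz.symm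
      suffices hs : P (insert u H) (q - 1) = 0 by rw [hs, zero_mul]
      rw [h.classOf_insert H u hu (q - 1)]
      by_cases hq1 : q = 1
      · rw [hq1, sub_self, zero_mul]
      have hq1' : 0 < q - 1 := by
        have : 1 ≤ q := by linarith
        rcases this.eq_or_lt with h1 | h1
        · exact absurd h1.symm hq1
        · linarith
      have hZn : ∀ T ∈ indep G H, ∀ w ∈ T, P (H \ T) (q - 1 - 1) = 0 := by
        intro T hT w hw
        have hwH : w ∈ H := (mem_indep.1 hT).1 hw
        have e1 := h.classOf H w (q - 1) hwH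
        rw [hz'] at e1
        have e2 : ∑ T ∈ (indep G H).filter (fun T => w ∈ T), P (H \ T) (q - 1 - 1) = 0 := by
          rcases mul_eq_zero.1 e1.symm with h1 | h1
          · exact absurd h1 hq1'.ne'
          · exact h1
        have hnn : ∀ T ∈ (indep G H).filter (fun T => w ∈ T), 0 ≤ P (H \ T) (q - 1 - 1) := by
          intro T hT
          have hlt : (H \ T).card < H.card :=
            ChromFam.card_sdiff_lt hwH (Finset.mem_filter.1 hT).2
          have hlt' : ((H \ T).card : ℝ) + 1 ≤ (H.card : ℝ) := by exact_mod_cast hlt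
          exact h.nonneg' _ _ (by linarith)
        exact (Finset.sum_eq_zero_iff_of_nonneg hnn).1 e2 T (Finset.mem_filter.2 ⟨hT, hw⟩)
      have hsum : ∀ F : Finset (Finset V), F ⊆ indep G H → ∅ ∈ F →
          ∑ T ∈ F, P (H \ T) (q - 1 - 1) = P (H \ ∅) (q - 1 - 1) := by
        intro F hF h0
        apply Finset.sum_eq_single_of_mem ∅ h0
        intro T hT hne
        obtain ⟨w, hw⟩ := Finset.nonempty_iff_ne_empty.2 hne
        exact hZn T (hF hT) w hw
      have e3 := h.classSum H (q - 1)
      rw [hz', hsum _ (Finset.Subset.refl _) (empty_mem_indep G H)] at e3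
      rw [hsum _ (Finset.filter_subset _ _)
        (Finset.mem_filter.2 ⟨empty_mem_indep G H, by simp⟩), ← e3, mul_zero]
    · have h1 : P H (q - 1) * (P (insert u H) (q - 1) * P H q - P (insert u H) q * P H (q - 1))
          * q ≤ 0 := by
        refine le_trans hc ?_
        have := mul_nonneg hΘ0 (sub_nonneg.2 hcm)
        linarith
      by_contra hcon
      push Not at hcon
      have h2 : 0 < P (insert u H) (q - 1) * P H q - P (insert u H) q * P H (q - 1) := by linarith
      have := mul_pos (mul_pos hp h2) hqpos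
      linarith

/-- Removing a set of vertices, for `q ≥ |H| - 1`. -/
theorem key_sdiffE (h : ChromFam G P) : ∀ (k : ℕ) (S : Finset V), S.card = k →
    ∀ H : Finset V, S ⊆ H → ∀ q : ℝ, (H.card : ℝ) ≤ q + 1 →
    P H (q - 1) * P (H \ S) q ≤ P H q * P (H \ S) (q - 1) := by
  intro k
  induction k with
  | zero =>
    intro S hS H' _ q' _
    rw [Finset.card_eq_zero] at hS
    subst hS
    rw [Finset.sdiff_empty]
    linarith
  | succ k ihk =>
    intro S hS H' hSH q' hq'
    obtain ⟨t, ht⟩ : S.Nonempty := by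
      rw [← Finset.card_pos, hS]; omega
    have ht' : t ∈ H' := hSH ht
    set H1 := H'.erase t with hH1
    have hcard1 : H1.card + 1 = H'.card := Finset.card_erase_add_one ht'
    have hcard1' : (H1.card : ℝ) + 1 = H'.card := by exact_mod_cast hcard1
    have hins : insert t H1 = H' := Finset.insert_erase ht'
    have hsd : H1 \ (S.erase t) = H' \ S := by
      ext a
      simp only [hH1, Finset.mem_sdiff, Finset.mem_erase, not_and, ne_eq]
      constructor
      · rintro ⟨⟨h1, h2⟩, h3⟩
        exact ⟨h2, h3 h1⟩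
      · rintro ⟨h1, h2⟩
        have : a ≠ t := fun h => h2 (h ▸ ht)
        exact ⟨⟨this, h1⟩, fun _ => h2⟩
    have hsub : S.erase t ⊆ H1 := Finset.erase_subset_erase t hSH
    have hk : (S.erase t).card = k := by
      rw [Finset.card_erase_of_mem ht, hS]; rfl
    have e1 := ihk (S.erase t) hk H1 hsub q' (by linarith)
    rw [hsd] at e1
    have e2 := keyE h H1.card H1 t q' rfl (Finset.notMem_erase t H') (by linarith)
    rw [hins] at e2
    have p1 : 0 < P H1 q' := h.pos' H1 q' (by linarith)
    have p2 : 0 ≤ P H1 (q' - 1) := h.nonneg' H1 (q' - 1) (by linarith)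
    have hsle : ((H' \ S).card : ℝ) ≤ q' := by
      have h3 : (H' \ S).card ≤ H1.card := by
        rw [← hsd]; exact Finset.card_le_card Finset.sdiff_subset
      have h4 : ((H' \ S).card : ℝ) ≤ H1.card := by exact_mod_cast h3
      linarith
    have p3 : 0 < P (H' \ S) q' := h.pos' _ q' (by linarith)
    have p4 : 0 ≤ P (H' \ S) (q' - 1) := h.nonneg' _ (q' - 1) (by linarith)
    have p5 : 0 ≤ P H' q' := h.nonneg' _ q' hq'
    rcases p2.eq_or_lt with p2z | p2p
    · rw [← p2z, mul_zero] at e2
      have e4 : P H' (q' - 1) ≤ 0 := by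
        by_contra hcon
        push Not at hcon
        have := mul_pos hcon p1
        linarith
      have e5 : P H' (q' - 1) * P (H' \ S) q' ≤ 0 := mul_nonpos_of_nonpos_of_nonneg e4 p3.le
      have e6 : 0 ≤ P H' q' * P (H' \ S) (q' - 1) := mul_nonneg p5 p4
      linarith
    · have e3 : (P H' (q' - 1) * P (H' \ S) q') * (P H1 q' * P H1 (q' - 1)) ≤
          (P H' q' * P (H' \ S) (q' - 1)) * (P H1 q' * P H1 (q' - 1)) := by
        calc (P H' (q' - 1) * P (H' \ S) q') * (P H1 q' * P H1 (q' - 1))
            = (P H' (q' - 1) * P H1 q') * (P H1 (q' - 1) * P (H' \ S) q') := by ring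
          _ ≤ (P H' q' * P H1 (q' - 1)) * (P H1 q' * P (H' \ S) (q' - 1)) := by
              apply mul_le_mul e2 e1
              · exact mul_nonneg p2 p3.le
              · exact mul_nonneg p5 p2
          _ = (P H' q' * P (H' \ S) (q' - 1)) * (P H1 q' * P H1 (q' - 1)) := by ring
      exact le_of_mul_le_mul_right e3 (mul_pos p1 p2p)

/-- **Log-concavity** for `q ≥ |S| - 1`. -/
theorem logConcaveE (h : ChromFam G P) (S : Finset V) (q : ℝ) (hq : (S.card : ℝ) ≤ q + 1) :
    P S (q + 1) * P S (q - 1) ≤ P S q ^ 2 := by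
  have e1 : P S (q + 1) = ∑ T ∈ indep G S, P (S \ T) q := by
    rw [h.classSum S (q + 1)]
    simp
  have e2 : P S q = ∑ T ∈ indep G S, P (S \ T) (q - 1) := h.classSum S q
  calc P S (q + 1) * P S (q - 1)
      = ∑ T ∈ indep G S, P S (q - 1) * P (S \ T) q := by
        rw [e1, Finset.sum_mul]
        apply Finset.sum_congr rfl
        intro T _
        ring
    _ ≤ ∑ T ∈ indep G S, P S q * P (S \ T) (q - 1) := by
        apply Finset.sum_le_sum
        intro T hT
        exact key_sdiffE h T.card T rfl S (mem_indep.1 hT).1 q hq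
    _ = P S q * P S q := by rw [← Finset.mul_sum, ← e2]
    _ = P S q ^ 2 := by ring

/-- The key inequality with a gap, for `q ≥ |H|`. -/
theorem keyGap (h : ChromFam G P) (H : Finset V) (u : V) (hu : u ∉ H) (q : ℝ)
    (hq : (H.card : ℝ) ≤ q) :
    (P (insert u H) (q - 1) * P H q) * q + (q - H.card) * (P H q * P H (q - 1)) ≤
      (P (insert u H) q * P H (q - 1)) * q := by
  classical
  rcases H.eq_empty_or_nonempty with h0 | ⟨w0, hw0⟩
  · subst h0
    rw [h.classOf_insert ∅ u hu q, h.classOf_insert ∅ u hu (q - 1), h.empty, h.empty]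
    have h1 : (indep G (∅ : Finset V)).filter (fun T => ∀ v ∈ T, ¬ G.Adj u v) = {∅} := by
      ext T
      rw [Finset.mem_filter, mem_indep, Finset.mem_singleton]
      constructor
      · rintro ⟨⟨h1, _⟩, _⟩
        exact Finset.subset_empty.1 h1
      · rintro rfl
        simp
    rw [h1, Finset.sum_singleton, Finset.sum_singleton, Finset.sdiff_self, h.empty, h.empty]
    simp only [Finset.card_empty, Nat.cast_zero]
    nlinarith
  have hcpos : 1 ≤ H.card := Finset.card_pos.2 ⟨w0, hw0⟩
  have hcpos' : (1 : ℝ) ≤ H.card := by exact_mod_cast hcpos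
  have hqpos : 0 < q := by linarith
  have hm : ∀ T ∈ indep G H, P H (q - 1 - 1) * P (H \ T) (q - 1) ≤
      P H (q - 1) * P (H \ T) (q - 1 - 1) := fun T hT =>
    key_sdiffE h T.card T rfl H (mem_indep.1 hT).1 (q - 1) (by linarith)
  obtain ⟨_, hc⟩ := core h H u hu q hq w0 hw0 hm
  have hlc := logConcaveE h H (q - 1) (by linarith)
  have hq11 : q - 1 + 1 = q := by ring
  rw [hq11] at hlc
  have p1 : 0 < P H q := h.pos' H q hq
  have p0' : 0 ≤ P H (q - 1) := h.nonneg' H (q - 1) (by linarith)
  have hke := keyE h H.card H u q rfl hu hq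
  rcases p0'.eq_or_lt with hz | p0
  · have h8 := mul_le_mul_of_nonneg_right hke hqpos.le
    have h9 : (q - H.card) * (P H q * P H (q - 1)) = 0 := by rw [← hz]; ring
    rw [h9, add_zero]
    exact h8
  have hd := deg_le h H u hu q hq
  have hcard : (H.filter (fun v => G.Adj u v)).card + (H.filter (fun v => ¬ G.Adj u v)).card
      = H.card := Finset.card_filter_add_card_filter_not _
  have hcard' : ((H.filter (fun v => G.Adj u v)).card : ℝ) +
      ((H.filter (fun v => ¬ G.Adj u v)).card : ℝ) = H.card := by exact_mod_cast hcard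
  set W := ((H.filter (fun v => ¬ G.Adj u v)).card : ℝ) with hW
  set A := ((H.filter (fun v => G.Adj u v)).card : ℝ) with hA
  -- `P (H + u) q - W P H q ≥ (q - |H|) P H q`
  have h1 : (q - H.card) * P H q ≤ P (insert u H) q - W * P H q := by
    have : (q - H.card) * P H q + W * P H q = (q - A) * P H q := by rw [← hcard']; ring
    linarith
  have h1' : 0 ≤ (q - H.card) * P H q := mul_nonneg (by linarith) p1.le
  -- `Θ ≥ p0 ^ 2`
  have h2 : P H (q - 1) * P H (q - 1) ≤
      q * P H (q - 1) * P H (q - 1) - (q - 1) * P H (q - 1 - 1) * P H q := by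
    have h3 : (q - 1) * (P H q * P H (q - 1 - 1)) ≤ (q - 1) * P H (q - 1) ^ 2 :=
      mul_le_mul_of_nonneg_left hlc (by linarith)
    nlinarith
  have h4 : P H (q - 1) * P H (q - 1) * ((q - H.card) * P H q) ≤
      (q * P H (q - 1) * P H (q - 1) - (q - 1) * P H (q - 1 - 1) * P H q) *
        (P (insert u H) q - W * P H q) :=
    mul_le_mul h2 h1 h1' (le_trans (mul_nonneg p0.le p0.le) h2)
  have h5 : P H (q - 1) * ((P (insert u H) (q - 1) * P H q - P (insert u H) q * P H (q - 1)) * q
      + P H (q - 1) * ((q - H.card) * P H q)) ≤ 0 := by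
    nlinarith
  have h6 : (P (insert u H) (q - 1) * P H q - P (insert u H) q * P H (q - 1)) * q
      + P H (q - 1) * ((q - H.card) * P H q) ≤ 0 := by
    by_contra hcon
    push Not at hcon
    have := mul_pos p0 hcon
    linarith
  nlinarith

/-- The gap form of vertex set removal: for `q + 1 ≥ n ≥ |H|` and `q ≥ 1` the factor
`1 - (q - n + 1) / q ^ 2` is gained for each vertex. -/
theorem key_sdiff_gap (h : ChromFam G P) (n : ℕ) (q : ℝ) (hq : (n : ℝ) ≤ q + 1) (hq1 : 1 ≤ q)
    (hn : 1 ≤ n) :
    ∀ (k : ℕ) (S : Finset V), S.card = k → ∀ H : Finset V, S ⊆ H → H.card ≤ n →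
    P H (q - 1) * P (H \ S) q ≤
      (1 - (q - n + 1) / q ^ 2) ^ k * (P H q * P (H \ S) (q - 1)) := by
  have hq0 : 0 < q := by linarith
  set ε := (q - n + 1) / q ^ 2 with hε
  have hq2 : 0 < q ^ 2 := by positivity
  have hn1 : (1 : ℝ) ≤ n := by exact_mod_cast hn
  have hε1 : ε ≤ 1 := by
    rw [hε, div_le_one hq2]
    nlinarith
  have hεn : 0 ≤ ε := by
    rw [hε]; apply div_nonneg _ hq2.le; linarith
  have hε0 : ε * q ^ 2 = q - n + 1 := by
    rw [hε]; field_simp
  intro k
  induction k with
  | zero =>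
    intro S hS H' _ _
    rw [Finset.card_eq_zero] at hS
    subst hS
    rw [Finset.sdiff_empty]
    linarith
  | succ k ihk =>
    intro S hS H' hSH hH'
    obtain ⟨t, ht⟩ : S.Nonempty := by
      rw [← Finset.card_pos, hS]; omega
    have ht' : t ∈ H' := hSH ht
    set H1 := H'.erase t with hH1
    have hcard1 : H1.card + 1 = H'.card := Finset.card_erase_add_one ht'
    have hcard1' : (H1.card : ℝ) + 1 = H'.card := by exact_mod_cast hcard1
    have hHn : (H'.card : ℝ) ≤ n := by exact_mod_cast hH'
    have hins : insert t H1 = H' := Finset.insert_erase ht'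
    have hsd : H1 \ (S.erase t) = H' \ S := by
      ext a
      simp only [hH1, Finset.mem_sdiff, Finset.mem_erase, not_and, ne_eq]
      constructor
      · rintro ⟨⟨h1, h2⟩, h3⟩
        exact ⟨h2, h3 h1⟩
      · rintro ⟨h1, h2⟩
        have : a ≠ t := fun h => h2 (h ▸ ht)
        exact ⟨⟨this, h1⟩, fun _ => h2⟩
    have hsub : S.erase t ⊆ H1 := Finset.erase_subset_erase t hSH
    have hk : (S.erase t).card = k := by
      rw [Finset.card_erase_of_mem ht, hS]; rfl
    have e1 := ihk (S.erase t) hk H1 hsub (by omega)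
    rw [hsd] at e1
    have e2 := keyGap h H1 t (Finset.notMem_erase t H') q (by linarith)
    have e2' := insert_le h H1 t (Finset.notMem_erase t H') q (by linarith)
    rw [hins] at e2 e2'
    have p1 : 0 < P H1 q := h.pos' H1 q (by linarith)
    have p2' : 0 ≤ P H1 (q - 1) := h.nonneg' H1 (q - 1) (by linarith)
    have hsle : ((H' \ S).card : ℝ) ≤ q := by
      have h3 : (H' \ S).card ≤ H1.card := by
        rw [← hsd]; exact Finset.card_le_card Finset.sdiff_subset
      have h4 : ((H' \ S).card : ℝ) ≤ H1.card := by exact_mod_cast h3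
      linarith
    have p3 : 0 < P (H' \ S) q := h.pos' _ q hsle
    have p4 : 0 ≤ P (H' \ S) (q - 1) := h.nonneg' _ (q - 1) (by linarith)
    have p5 : 0 ≤ P H' q := h.nonneg' _ q (by linarith)
    rcases p2'.eq_or_lt with hz | p2
    · rw [← hz, mul_zero, mul_zero, mul_zero, zero_mul] at e2
      have e4 : P H' (q - 1) ≤ 0 := by
        by_contra hcon
        push Not at hcon
        have := mul_pos (mul_pos hcon p1) hq0
        linarith
      have e5 : P H' (q - 1) * P (H' \ S) q ≤ 0 := mul_nonpos_of_nonpos_of_nonneg e4 p3.le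
      have e6 : 0 ≤ (1 - ε) ^ (k + 1) * (P H' q * P (H' \ S) (q - 1)) :=
        mul_nonneg (pow_nonneg (by linarith) _) (mul_nonneg p5 p4)
      linarith
    -- the one vertex step
    have e3 : P H' (q - 1) * P H1 q ≤ (1 - ε) * (P H' q * P H1 (q - 1)) := by
      have f1 : (q - n + 1) * (P H1 q * P H1 (q - 1)) ≤ (q - H1.card) * (P H1 q * P H1 (q - 1)) :=
        mul_le_mul_of_nonneg_right (by linarith) (mul_pos p1 p2).le
      have f2 : P H' q * P H1 (q - 1) ≤ (q * P H1 q) * P H1 (q - 1) :=
        mul_le_mul_of_nonneg_right e2' p2.le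
      have f3 : ε * q * (P H' q * P H1 (q - 1)) ≤ ε * q * ((q * P H1 q) * P H1 (q - 1)) := by
        apply mul_le_mul_of_nonneg_left f2
        positivity
      have f4 : ε * q * ((q * P H1 q) * P H1 (q - 1)) = (q - n + 1) * (P H1 q * P H1 (q - 1)) := by
        rw [← hε0]; ring
      have f5 : (P H' (q - 1) * P H1 q) * q ≤ ((1 - ε) * (P H' q * P H1 (q - 1))) * q := by
        nlinarith
      exact le_of_mul_le_mul_right f5 hq0
    have e4 : (P H' (q - 1) * P (H' \ S) q) * (P H1 q * P H1 (q - 1)) ≤
        ((1 - ε) ^ (k + 1) * (P H' q * P (H' \ S) (q - 1))) * (P H1 q * P H1 (q - 1)) := by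
      calc (P H' (q - 1) * P (H' \ S) q) * (P H1 q * P H1 (q - 1))
          = (P H' (q - 1) * P H1 q) * (P H1 (q - 1) * P (H' \ S) q) := by ring
        _ ≤ ((1 - ε) * (P H' q * P H1 (q - 1))) *
            ((1 - ε) ^ k * (P H1 q * P (H' \ S) (q - 1))) := by
            apply mul_le_mul e3 e1
            · exact mul_nonneg p2.le p3.le
            · exact mul_nonneg (by linarith) (mul_nonneg p5 p2.le)
        _ = ((1 - ε) ^ (k + 1) * (P H' q * P (H' \ S) (q - 1))) * (P H1 q * P H1 (q - 1)) := by
            ring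
    exact le_of_mul_le_mul_right e4 (mul_pos p1 p2)

/-- The elementary bound for powers. -/
theorem pow_bound {ε : ℝ} (h0 : 0 ≤ ε) (h1 : ε ≤ 1) {t n : ℕ} (htn : t ≤ n) :
    (1 - ε) ^ t ≤ 1 - t * (ε / (1 + n * ε)) := by
  have hn : 0 < 1 + n * ε := by positivity
  have ht : 0 < 1 + t * ε := by positivity
  have hb : 1 + t * ε ≤ (1 + ε) ^ t := by
    have := one_add_mul_le_pow (show (-2 : ℝ) ≤ ε by linarith) t
    linarith
  have h2 : (1 - ε) ^ t * (1 + ε) ^ t ≤ 1 := by
    rw [← mul_pow]
    apply pow_le_one₀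
    · nlinarith
    · nlinarith
  have h3 : (1 - ε) ^ t * (1 + t * ε) ≤ 1 :=
    le_trans (mul_le_mul_of_nonneg_left hb (pow_nonneg (by linarith) t)) h2
  have h4 : (1 - ε) ^ t ≤ 1 - t * ε / (1 + t * ε) := by
    have : 1 - t * ε / (1 + t * ε) = 1 / (1 + t * ε) := by field_simp; ring
    rw [this, le_div_iff₀ ht]
    exact h3
  have h5 : t * (ε / (1 + n * ε)) ≤ t * ε / (1 + t * ε) := by
    rw [← mul_div_assoc]
    apply div_le_div_of_nonneg_left (by positivity) ht
    have : (t : ℝ) ≤ n := by exact_mod_cast htn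
    nlinarith
  linarith

/-- **Log-concavity with a gap**, for `q ≥ |S| - 1`. -/
theorem logConcaveGap (h : ChromFam G P) (S : Finset V) (q : ℝ) (hq : (S.card : ℝ) ≤ q + 1) :
    P S (q + 1) * P S (q - 1) ≤
      (1 - S.card * (q - S.card + 1) / (q ^ 2 * (q + S.card))) * P S q ^ 2 := by
  classical
  rcases S.eq_empty_or_nonempty with h0 | ⟨w0, hw0⟩
  · subst h0
    rw [h.empty, h.empty, h.empty]
    simp
  by_cases hS1 : S.card = 1
  · -- one vertex: `P q = q`
    obtain ⟨a, rfl⟩ := Finset.card_eq_one.1 hS1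
    have hP : ∀ x : ℝ, P {a} x = x := by
      intro x
      have h1 := h.classOf {a} a x (Finset.mem_singleton_self a)
      have h2 : (indep G {a}).filter (fun T => a ∈ T) = {{a}} := by
        ext T
        rw [Finset.mem_filter, mem_indep, Finset.mem_singleton]
        constructor
        · rintro ⟨⟨h1, _⟩, h2⟩
          exact Finset.Subset.antisymm h1 (Finset.singleton_subset_iff.2 h2)
        · rintro rfl
          refine ⟨⟨Finset.Subset.refl _, ?_⟩, Finset.mem_singleton_self a⟩
          intro u hu v hv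
          rw [Finset.mem_singleton] at hu hv
          subst hu; subst hv
          exact G.loopless.irrefl _
      rw [h2, Finset.sum_singleton, Finset.sdiff_self, h.empty, mul_one] at h1
      exact h1
    rw [hP, hP, hP]
    simp only [Finset.card_singleton, Nat.cast_one] at hq ⊢
    have hq0 : 0 ≤ q := by linarith
    rcases hq0.eq_or_lt with hz | hp
    · rw [← hz]; norm_num
    · have e1 : (1 - 1 * (q - 1 + 1) / (q ^ 2 * (q + 1))) * q ^ 2 = q ^ 2 - q / (q + 1) := by
        field_simp
        ring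
      rw [e1]
      have e2 : q / (q + 1) ≤ 1 := by
        rw [div_le_one (by linarith)]; linarith
      nlinarith
  set n := S.card with hn
  have hnpos : 1 ≤ n := Finset.card_pos.2 ⟨w0, hw0⟩
  have hn1 : (1 : ℝ) ≤ n := by exact_mod_cast hnpos
  have hn2 : (2 : ℝ) ≤ n := by
    have : 2 ≤ n := by omega
    exact_mod_cast this
  have hq1 : 1 ≤ q := by linarith
  have hq0 : 0 < q := by linarith
  have hq2 : 0 < q ^ 2 := by positivity
  set ε := (q - n + 1) / q ^ 2 with hε
  have hε0 : 0 ≤ ε := by rw [hε]; apply div_nonneg _ hq2.le; linarith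
  have hε1 : ε ≤ 1 := by
    rw [hε, div_le_one hq2]
    nlinarith
  have hεq : ε * q ^ 2 = q - n + 1 := by rw [hε]; field_simp
  have p1 : 0 ≤ P S q := h.nonneg' S q hq
  have e1 : P S (q + 1) = ∑ T ∈ indep G S, P (S \ T) q := by
    rw [h.classSum S (q + 1)]
    simp
  have e2 : P S q = ∑ T ∈ indep G S, P (S \ T) (q - 1) := h.classSum S q
  set δ := ε / (1 + n * ε) with hδ
  have hδ0 : 0 ≤ δ := by rw [hδ]; positivity
  have e3 : P S (q + 1) * P S (q - 1) ≤
      ∑ T ∈ indep G S, (1 - T.card * δ) * (P S q * P (S \ T) (q - 1)) := by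
    rw [e1, Finset.sum_mul]
    apply Finset.sum_le_sum
    intro T hT
    rcases T.eq_empty_or_nonempty with h0 | ⟨w, hw⟩
    · subst h0
      rw [Finset.sdiff_empty, Finset.card_empty, Nat.cast_zero, zero_mul, sub_zero, one_mul]
    · have f1 := key_sdiff_gap h n q hq hq1 hnpos T.card T rfl S (mem_indep.1 hT).1 le_rfl
      have f2 := pow_bound hε0 hε1 (Finset.card_le_card (mem_indep.1 hT).1)
      have hZ : 0 ≤ P (S \ T) (q - 1) := by
        have hlt : (S \ T).card < S.card :=
          ChromFam.card_sdiff_lt ((mem_indep.1 hT).1 hw) hw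
        have hlt' : ((S \ T).card : ℝ) + 1 ≤ (n : ℝ) := by
          rw [hn]; exact_mod_cast hlt
        exact h.nonneg' _ _ (by linarith)
      have f3 := mul_le_mul_of_nonneg_right f2 (mul_nonneg p1 hZ)
      calc P (S \ T) q * P S (q - 1) = P S (q - 1) * P (S \ T) q := by ring
        _ ≤ _ := f1
        _ ≤ _ := f3
  have e4 : q * ∑ T ∈ indep G S, (T.card : ℝ) * P (S \ T) (q - 1) = n * P S q := by
    have f1 : ∑ T ∈ indep G S, (T.card : ℝ) * P (S \ T) (q - 1) =
        ∑ w ∈ S, ∑ T ∈ (indep G S).filter (fun T => w ∈ T), P (S \ T) (q - 1) := by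
      simp_rw [Finset.sum_filter]
      rw [Finset.sum_comm]
      apply Finset.sum_congr rfl
      intro T hT
      rw [← Finset.sum_filter, Finset.sum_const, nsmul_eq_mul]
      congr 2
      rw [Finset.filter_mem_eq_inter, Finset.inter_eq_right.2 (mem_indep.1 hT).1]
    rw [f1, Finset.mul_sum]
    have f2 : ∀ w ∈ S, q * ∑ T ∈ (indep G S).filter (fun T => w ∈ T), P (S \ T) (q - 1)
        = P S q := fun w hw => (h.classOf S w q hw).symm
    rw [Finset.sum_congr rfl f2, Finset.sum_const, nsmul_eq_mul]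
  have e5 : ∑ T ∈ indep G S, (1 - T.card * δ) * (P S q * P (S \ T) (q - 1)) =
      P S q * (∑ T ∈ indep G S, P (S \ T) (q - 1))
        - δ * P S q * ∑ T ∈ indep G S, (T.card : ℝ) * P (S \ T) (q - 1) := by
    rw [Finset.mul_sum, Finset.mul_sum, ← Finset.sum_sub_distrib]
    apply Finset.sum_congr rfl
    intro T _
    ring
  rw [e5, ← e2] at e3
  refine le_trans e3 ?_
  have e6 : ∑ T ∈ indep G S, (T.card : ℝ) * P (S \ T) (q - 1) = n * P S q / q := by
    field_simp
    linarith
  rw [e6]
  have e7 : n * (q - n + 1) / (q ^ 2 * (q + n)) ≤ δ * n / q := by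
    have g1 : 0 < 1 + n * ε := by positivity
    have g2 : (0 : ℝ) < q + n := by linarith
    have g6 : n * (q - n + 1) / (q ^ 2 * (q + n)) = (ε * n) / (q + n) := by
      rw [div_eq_div_iff (by positivity) g2.ne', ← hεq]
      ring
    have g7 : δ * n / q = (ε * n) / ((1 + n * ε) * q) := by
      rw [hδ]
      field_simp
    rw [g6, g7]
    have g3 : n * ε * q ≤ n := by
      have : ε * q ≤ 1 := by
        have g4 : ε * q * q ≤ 1 * q := by nlinarith
        exact le_of_mul_le_mul_right g4 hq0
      nlinarith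
    apply div_le_div_of_nonneg_left (by positivity) (by positivity)
    linarith
  have e8 : 0 ≤ P S q ^ 2 := by positivity
  have e9 := mul_le_mul_of_nonneg_right e7 e8
  have e10 : δ * P S q * (n * P S q / q) = δ * n / q * P S q ^ 2 := by ring
  rw [e10]
  nlinarith

end Pool.Agent.Lib.MP_2c0ab4_co.H61
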